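import Pool.Agent.Q72.AL.Stm

set_option autoImplicit false

open Complex
open H345 (Zo aa XX)

namespace Pool.Agent.Q178.AL

/-- J_CONJ of project AL -/
theorem conj : Pool.Agent.Q72.AL.J_CONJ := by
  intro t ht
  have hX1 : ‖XX (1 / 2 + (t : ℂ) * I)‖ = 1 := H345.norm_XX_half t
  have hXne : XX (1 / 2 + (t : ℂ) * I) ≠ 0 := by
    intro h
    rw [h, norm_zero] at hX1
    exact zero_ne_one hX1
  rw [H345.aa_conj t ht]
  generalize XX (1 / 2 + (t : ℂ) * I) = x at hXne
  rw [neg_div, mul_neg, neg_mul, neg_neg, mul_div_assoc', mul_comm, mul_div_assoc, div_self hXne, mul_one]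

end Pool.Agent.Q178.AL
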